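import Mathlib
import Pool.Agent.Helper605.FT.A

set_option autoImplicit false

namespace Pool.Agent.Helper605.FX

open Pool.Agent.Helper605.FT

/-- the set of a mask: bit `i - 1` stands for the element `i` -/
def bits (N m : ℕ) : Finset ℕ := (Finset.Icc 1 N).filter (fun i => m.testBit (i - 1) = true)

theorem mem_bits {N m i : ℕ} : i ∈ bits N m ↔ (1 ≤ i ∧ i ≤ N) ∧ m.testBit (i - 1) = true := by
  unfold bits; rw [Finset.mem_filter, Finset.mem_Icc]

theorem mem_bits_succ {N m b : ℕ} (hb : b < N) : b + 1 ∈ bits N m ↔ m.testBit b = true := by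
  rw [mem_bits, Nat.add_sub_cancel]
  exact ⟨fun h => h.2, fun h => ⟨⟨by omega, by omega⟩, h⟩⟩

theorem bits_sub (N m : ℕ) : bits N m ⊆ Finset.Icc 1 N := Finset.filter_subset _ _

theorem bits_xor_mem {N m b i : ℕ} (hb : b < N) : i ∈ bits N (m ^^^ 2 ^ b) ↔
    (i ∈ bits N m ∧ i ≠ b + 1) ∨ (i = b + 1 ∧ i ∉ bits N m) := by
  rw [mem_bits, mem_bits, Nat.testBit_xor, Nat.testBit_two_pow]
  by_cases h : b = i - 1
  · by_cases h1 : 1 ≤ i
    · have hi : i = b + 1 := by omega
      subst hi
      cases h2 : m.testBit (b + 1 - 1) <;> simp [h2] <;> omega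
    · have : i = 0 := by omega
      subst this
      simp
  · have hi : 1 ≤ i → i ≠ b + 1 := fun _ e => h (by omega)
    rw [decide_eq_false h, Bool.xor_false]
    constructor
    · rintro ⟨h1, h2⟩
      exact Or.inl ⟨⟨h1, h2⟩, hi h1.1⟩
    · rintro (⟨h1, -⟩ | ⟨h1, -⟩)
      · exact h1
      · exact absurd h1 (by omega)

theorem bits_erase {N m b : ℕ} (hb : b < N) (h : m.testBit b = true) :
    bits N (m ^^^ 2 ^ b) = (bits N m).erase (b + 1) := by
  ext i
  rw [bits_xor_mem hb, Finset.mem_erase]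
  have h1 : b + 1 ∈ bits N m := (mem_bits_succ hb).2 h
  constructor
  · rintro (h2 | ⟨rfl, h2⟩)
    · exact ⟨h2.2, h2.1⟩
    · exact absurd h1 h2
  · rintro ⟨h2, h3⟩
    exact Or.inl ⟨h3, h2⟩

theorem bits_insert {N m b : ℕ} (hb : b < N) (h : m.testBit b = false) :
    bits N (m ^^^ 2 ^ b) = insert (b + 1) (bits N m) := by
  ext i
  rw [bits_xor_mem hb, Finset.mem_insert]
  have h1 : b + 1 ∉ bits N m := by rw [mem_bits_succ hb, h]; simp
  constructor
  · rintro (h2 | ⟨h3, h2⟩)
    · exact Or.inr h2.1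
    · exact Or.inl h3
  · rintro (rfl | h3)
    · exact Or.inr ⟨rfl, h1⟩
    · exact Or.inl ⟨h3, fun e => h1 (e ▸ h3)⟩

theorem adj_xor {N m b : ℕ} (hb : b < N) : Adj (bits N m) (bits N (m ^^^ 2 ^ b)) := by
  cases h : m.testBit b
  · left
    exact ⟨b + 1, by rw [mem_bits_succ hb, h]; simp, bits_insert hb h⟩
  · right
    refine ⟨b + 1, ?_, ?_⟩
    · rw [bits_erase hb h]; simp
    · rw [bits_erase hb h, Finset.insert_erase ((mem_bits_succ hb).2 h)]

theorem bits_inj {N m m' : ℕ} (hm : m < 2 ^ N) (hm' : m' < 2 ^ N) (h : bits N m = bits N m') :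
    m = m' := by
  apply Nat.eq_of_testBit_eq
  intro i
  by_cases hi : i < N
  · have h1 := mem_bits_succ (m := m) hi
    have h2 := mem_bits_succ (m := m') hi
    rw [h] at h1
    have h3 : m.testBit i = true ↔ m'.testBit i = true := h1.symm.trans h2
    exact Bool.eq_iff_iff.2 h3
  · have e1 : 2 ^ N ≤ 2 ^ i := Nat.pow_le_pow_right (by norm_num) (by omega)
    rw [Nat.testBit_lt_two_pow (lt_of_lt_of_le hm e1), Nat.testBit_lt_two_pow (lt_of_lt_of_le hm' e1)]

/-- every lower cover of `cur` is in `V` or is `nxt` -/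
def low (V nxt cur : ℕ) : ℕ → Bool
  | 0 => true
  | b + 1 => ((!cur.testBit b) || (V.testBit (cur ^^^ 2 ^ b) || (cur ^^^ 2 ^ b == nxt))) &&
      low V nxt cur b

/-- every lower cover of `cur` is in `V` -/
def low' (V cur : ℕ) : ℕ → Bool
  | 0 => true
  | b + 1 => ((!cur.testBit b) || V.testBit (cur ^^^ 2 ^ b)) && low' V cur b

def chk (N : ℕ) : ℕ → ℕ → ℕ → ℕ → Bool
  | 0, _, cur, V => (!V.testBit cur) && low' V cur N
  | f + 1, x, cur, V => Nat.ble (x % 16 + 1) N && ((!V.testBit cur) &&
      (low V (cur ^^^ 2 ^ (x % 16)) cur N &&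
        chk N f (x / 16) (cur ^^^ 2 ^ (x % 16)) (V ||| 2 ^ cur)))

def path : ℕ → ℕ → ℕ → List ℕ
  | 0, _, cur => [cur]
  | f + 1, x, cur => cur :: path f (x / 16) (cur ^^^ 2 ^ (x % 16))

def chkN (N x : ℕ) : Bool := chk N (2 ^ N - 1) x 0 0

theorem low_spec {V nxt cur : ℕ} : ∀ {n : ℕ}, low V nxt cur n = true → ∀ b < n,
    cur.testBit b = true → V.testBit (cur ^^^ 2 ^ b) = true ∨ cur ^^^ 2 ^ b = nxt
  | 0, _, b, hb, _ => absurd hb (by omega)
  | n + 1, h, b, hb, hc => by
    rw [low, Bool.and_eq_true] at h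
    rcases Nat.lt_succ_iff_lt_or_eq.1 hb with h1 | rfl
    · exact low_spec h.2 b h1 hc
    · have := h.1
      rw [hc] at this
      simpa using this

theorem low'_spec {V cur : ℕ} : ∀ {n : ℕ}, low' V cur n = true → ∀ b < n,
    cur.testBit b = true → V.testBit (cur ^^^ 2 ^ b) = true
  | 0, _, b, hb, _ => absurd hb (by omega)
  | n + 1, h, b, hb, hc => by
    rw [low', Bool.and_eq_true] at h
    rcases Nat.lt_succ_iff_lt_or_eq.1 hb with h1 | rfl
    · exact low'_spec h.2 b h1 hc
    · have := h.1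
      rw [hc] at this
      simpa using this

theorem path_length (f x cur : ℕ) : (path f x cur).length = f + 1 := by
  induction f generalizing x cur with
  | zero => rfl
  | succ f ih => rw [path, List.length_cons, ih]

theorem path_head (f x cur : ℕ) : ∃ l, path f x cur = cur :: l := by
  cases f with
  | zero => exact ⟨[], rfl⟩
  | succ f => exact ⟨_, rfl⟩

/-- elements of the path are new -/
theorem path_new {N : ℕ} : ∀ {f x cur V : ℕ}, chk N f x cur V = true →
    ∀ m ∈ path f x cur, V.testBit m = false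
  | 0, x, cur, V, h, m, hm => by
    rw [chk, Bool.and_eq_true] at h
    rw [path, List.mem_singleton] at hm
    subst hm
    simpa using h.1
  | f + 1, x, cur, V, h, m, hm => by
    rw [chk] at h
    simp only [Bool.and_eq_true] at h
    rw [path, List.mem_cons] at hm
    rcases hm with rfl | hm
    · simpa using h.2.1
    · have := path_new h.2.2.2 m hm
      rw [Nat.testBit_or, Bool.or_eq_false_iff] at this
      exact this.1

theorem path_lt {N : ℕ} : ∀ {f x cur V : ℕ}, chk N f x cur V = true → cur < 2 ^ N →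
    ∀ m ∈ path f x cur, m < 2 ^ N
  | 0, x, cur, V, h, hc, m, hm => by
    rw [path, List.mem_singleton] at hm
    subst hm; exact hc
  | f + 1, x, cur, V, h, hc, m, hm => by
    rw [chk] at h
    simp only [Bool.and_eq_true] at h
    rw [path, List.mem_cons] at hm
    rcases hm with rfl | hm
    · exact hc
    · have hb : x % 16 < N := by
        have := Nat.le_of_ble_eq_true h.1
        omega
      exact path_lt h.2.2.2 (Nat.xor_lt_two_pow hc (Nat.pow_lt_pow_right (by norm_num) hb)) m hm

/-- all subsets of the visited sets are visited or are `cur` -/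
def DD (N V cur : ℕ) : Prop :=
  ∀ m < 2 ^ N, V.testBit m = true → ∀ c ⊆ bits N m,
    (∃ m' < 2 ^ N, V.testBit m' = true ∧ bits N m' = c) ∨ c = bits N cur

theorem DD_step {N V cur nxt : ℕ} (hD : DD N V cur) (hc : cur < 2 ^ N)
    (hl : ∀ b < N, cur.testBit b = true → V.testBit (cur ^^^ 2 ^ b) = true ∨ cur ^^^ 2 ^ b = nxt) :
    DD N (V ||| 2 ^ cur) nxt := by
  have key : ∀ b < N, cur.testBit b = true → V.testBit (cur ^^^ 2 ^ b) = true →
      ∀ c ⊆ (bits N cur).erase (b + 1),
      ∃ m' < 2 ^ N, (V ||| 2 ^ cur).testBit m' = true ∧ bits N m' = c := by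
    intro b hb hcb hV c hcs
    have hlt : cur ^^^ 2 ^ b < 2 ^ N :=
      Nat.xor_lt_two_pow hc (Nat.pow_lt_pow_right (by norm_num) hb)
    rcases hD _ hlt hV c (by rw [bits_erase hb hcb]; exact hcs) with ⟨m', h1, h2, h3⟩ | h
    · exact ⟨m', h1, by rw [Nat.testBit_or, h2, Bool.true_or], h3⟩
    · refine ⟨cur, hc, ?_, h.symm⟩
      rw [Nat.testBit_or, Nat.testBit_two_pow_self, Bool.or_true]
  intro m hm hV c hcm
  rw [Nat.testBit_or, Bool.or_eq_true] at hV
  rcases hV with hV | hV
  · rcases hD m hm hV c hcm with ⟨m', h1, h2, h3⟩ | h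
    · exact Or.inl ⟨m', h1, by rw [Nat.testBit_or, h2, Bool.true_or], h3⟩
    · refine Or.inl ⟨cur, hc, ?_, h.symm⟩
      rw [Nat.testBit_or, Nat.testBit_two_pow_self, Bool.or_true]
  · rw [Nat.testBit_two_pow, decide_eq_true_eq] at hV
    subst hV
    by_cases hce : c = bits N cur
    · refine Or.inl ⟨cur, hc, ?_, hce.symm⟩
      rw [Nat.testBit_or, Nat.testBit_two_pow_self, Bool.or_true]
    · obtain ⟨i, hi, hic⟩ : ∃ i ∈ bits N cur, i ∉ c := by
        by_contra hcon
        push Not at hcon
        exact hce (Finset.Subset.antisymm hcm hcon)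
      obtain ⟨⟨hi1, hi2⟩, hib⟩ := mem_bits.1 hi
      obtain ⟨b, rfl⟩ : ∃ b, i = b + 1 := ⟨i - 1, by omega⟩
      rw [Nat.add_sub_cancel] at hib
      have hb : b < N := by omega
      rcases hl b hb hib with h1 | h1
      · left
        exact key b hb hib h1 c (fun j hj => Finset.mem_erase.2 ⟨fun e => hic (e ▸ hj), hcm hj⟩)
      · -- the lower cover is `nxt`
        by_cases hcn : c = bits N nxt
        · exact Or.inr hcn
        · left
          have hne : bits N nxt = (bits N cur).erase (b + 1) := by rw [← h1, bits_erase hb hib]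
          obtain ⟨j, hj, hjc⟩ : ∃ j ∈ bits N nxt, j ∉ c := by
            by_contra hcon
            push Not at hcon
            refine hcn (Finset.Subset.antisymm ?_ hcon)
            rw [hne]
            exact fun j hj => Finset.mem_erase.2 ⟨fun e => hic (e ▸ hj), hcm hj⟩
          rw [hne, Finset.mem_erase] at hj
          obtain ⟨hjb, hj⟩ := hj
          obtain ⟨⟨hj1, hj2⟩, hjt⟩ := mem_bits.1 hj
          obtain ⟨d, rfl⟩ : ∃ d, j = d + 1 := ⟨j - 1, by omega⟩
          rw [Nat.add_sub_cancel] at hjt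
          have hd : d < N := by omega
          rcases hl d hd hjt with h2 | h2
          · exact key d hd hjt h2 c
              (fun k hk => Finset.mem_erase.2 ⟨fun e => hjc (e ▸ hk), hcm hk⟩)
          · exfalso
            have h3 : bits N (cur ^^^ 2 ^ d) = bits N (cur ^^^ 2 ^ b) := by rw [h1, h2]
            rw [bits_erase hd hjt, bits_erase hb hib] at h3
            have h4 : b + 1 ∈ (bits N cur).erase (d + 1) :=
              Finset.mem_erase.2 ⟨fun e => hjb e.symm, hi⟩
            rw [h3] at h4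
            exact absurd rfl (Finset.mem_erase.1 h4).1

theorem path_ok {N : ℕ} : ∀ {f x cur V : ℕ}, chk N f x cur V = true → cur < 2 ^ N → DD N V cur →
    Ok ((path f x cur).map (bits N))
  | 0, x, cur, V, h, hc, hD => trivial
  | f + 1, x, cur, V, h, hc, hD => by
    rw [chk] at h
    simp only [Bool.and_eq_true] at h
    have hb : x % 16 < N := by
      have := Nat.le_of_ble_eq_true h.1
      omega
    have hn : cur ^^^ 2 ^ (x % 16) < 2 ^ N :=
      Nat.xor_lt_two_pow hc (Nat.pow_lt_pow_right (by norm_num) hb)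
    have hD' := DD_step (nxt := cur ^^^ 2 ^ (x % 16)) hD hc (low_spec h.2.2.1)
    have ih := path_ok h.2.2.2 hn hD'
    have hnew := path_new h.2.2.2
    have hlt := path_lt h.2.2.2 hn
    rw [path, List.map_cons]
    cases f with
    | zero =>
      rw [path, List.map_cons, List.map_nil]
      exact ⟨adj_xor hb, by simp, trivial⟩
    | succ f =>
      rw [path, List.map_cons] at ih ⊢
      rw [path] at hnew hlt
      refine ⟨adj_xor hb, ?_, ih⟩
      intro c hcm hcs
      rw [List.mem_map] at hcm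
      obtain ⟨m, hm, rfl⟩ := hcm
      have h1 := hnew m (List.mem_cons_of_mem _ hm)
      have h2 := hlt m (List.mem_cons_of_mem _ hm)
      have h3 : (V ||| 2 ^ cur).testBit cur = true := by
        rw [Nat.testBit_or, Nat.testBit_two_pow_self, Bool.or_true]
      rcases hD' cur hc h3 (bits N m) hcs with ⟨m', h4, h5, h6⟩ | h4
      · have := bits_inj h4 h2 h6
        subst this
        rw [h1] at h5; exact absurd h5 (by simp)
      · have e := bits_inj h2 hn h4
        subst e
        -- the next set appears later again: impossible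
        have h7 := h.2.2.2
        rw [chk] at h7
        simp only [Bool.and_eq_true] at h7
        have h8 := path_new h7.2.2.2 _ hm
        rw [Nat.testBit_or, Nat.testBit_two_pow_self, Bool.or_true] at h8
        exact absurd h8 (by simp)

theorem small_of_code (N x : ℕ) (h : chkN N x = true) :
    ∃ L : List (Finset ℕ), Ok L ∧ L.head? = some ∅ ∧ (∀ a ∈ L, a ⊆ Finset.Icc 1 N) ∧
      L.length = 2 ^ N := by
  refine ⟨(path (2 ^ N - 1) x 0).map (bits N), ?_, ?_, ?_, ?_⟩
  · refine path_ok h (by positivity) ?_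
    intro m _ hm
    rw [Nat.zero_testBit] at hm
    exact absurd hm (by simp)
  · obtain ⟨l, hl⟩ := path_head (2 ^ N - 1) x 0
    rw [hl, List.map_cons, List.head?_cons]
    congr 1
    ext i
    rw [mem_bits, Nat.zero_testBit]
    simp
  · intro a ha
    rw [List.mem_map] at ha
    obtain ⟨m, -, rfl⟩ := ha
    exact bits_sub N m
  · rw [List.length_map, path_length]
    have : 0 < 2 ^ N := by positivity
    omega

end Pool.Agent.Helper605.FX
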