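import Pool.Agent.Helper605.FX.Small

set_option autoImplicit false

namespace Pool.Agent.Helper605.FX

open Pool.Agent.Helper605.FT

set_option maxRecDepth 200000

theorem c0 : chkN 0 0x0 = true := by decide +kernel

theorem c1 : chkN 1 0x0 = true := by decide +kernel

theorem c2 : chkN 2 0x10 = true := by decide +kernel

theorem c3 : chkN 3 0x2021020 = true := by decide +kernel

theorem c4 : chkN 4 0x320210301201303 = true := by decide +kernel

theorem c5 : chkN 5 0x2420410310401324013014103123424 = true := by decide +kernel

theorem c6 : chkN 6 0x340420521535125025340253213240242132501324350253214123520510414 = true := by decide +kernel

theorem c7 : chkN 7 0x302352451461216326103265260452632031450310154023623103561064052631435064163142642541452460124136145345215432650602312016056454 = true := by decide +kernel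

theorem c8 : chkN 8 0x241471576536032306356027520175265367163071641302372675634243657436176372062761327617402372016726527064261207406531765407106103242743047160175102167137207547027067165461750346176431234650726517547627245712764321603713723507512615745065034753570560162132434 = true := by decide +kernel

theorem c9 : chkN 9 0x3734784285265061028248740160172106527017416506207437520510614684736756056765068174571062450320510576146158473672106703718618243067038642316473153728734234568540235132642843128425314208243428438531685413023645245143728714312345685215207104801638625123028720763205281342645620426136251267012472468764507517430426724021625714764652706716214285036426701241572462160530287147648276035847157054670126104584614218340671476073572675076412762061527267507106146821468763741746706835810417507647086573523268461401705735232 = true := by decide +kernel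

/-- all small cases up to nine elements -/
theorem small9 (N : ℕ) (h : N ≤ 9) :
    ∃ L : List (Finset ℕ), Ok L ∧ L.head? = some ∅ ∧ (∀ a ∈ L, a ⊆ Finset.Icc 1 N) ∧
      L.length = 2 ^ N := by
  interval_cases N
  · exact small_of_code _ _ c0
  · exact small_of_code _ _ c1
  · exact small_of_code _ _ c2
  · exact small_of_code _ _ c3
  · exact small_of_code _ _ c4
  · exact small_of_code _ _ c5
  · exact small_of_code _ _ c6
  · exact small_of_code _ _ c7
  · exact small_of_code _ _ c8
  · exact small_of_code _ _ c9

end Pool.Agent.Helper605.FX
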