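import Mathlib
import Pool.Agent.Helper605.FT.Conv

set_option autoImplicit false

namespace Pool.Agent.Helper605.FX

open Pool.Agent.Helper605.FT

/-- the upper bound on the length of an alpha-sequence that starts with the empty set -/
theorem val_upper (n s : ℕ) (hn : 1 ≤ n) (B : ℕ → Finset (Fin n)) (h0 : B 0 = ∅)
    (h1 : ∀ i : ℕ, i + 1 < s → ¬ B (i + 1) ⊆ B i)
    (h2 : ∀ i k : ℕ, i + 2 ≤ k → k < s → ¬ B k ⊆ B i ∪ B (i + 1)) :
    s ≤ 2 ^ (n - 1) + (n + 1) / 2 := by
  rcases Nat.eq_zero_or_pos s with hs | hs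
  · rw [hs]; exact Nat.zero_le _
  set F : ℕ → Finset (Finset (Fin n)) := fun i => Finset.Icc (B (i + 1)) (B i ∪ B (i + 1)) with hF
  have hFc : ∀ i, (F i).card = 2 ^ ((B i ∪ B (i + 1)).card - (B (i + 1)).card) := fun i =>
    Finset.card_Icc_finset Finset.subset_union_right
  have hdis : ∀ i ∈ Finset.range (s - 1), ∀ j ∈ Finset.range (s - 1), i ≠ j →
      Disjoint (F i) (F j) := by
    have key : ∀ i j, i < j → j < s - 1 → Disjoint (F i) (F j) := by
      intro i j hij hj
      rw [Finset.disjoint_left]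
      intro X hX1 hX2
      rw [hF, Finset.mem_Icc] at hX1 hX2
      exact h2 i (j + 1) (by omega) (by omega) (le_trans hX2.1 hX1.2)
    intro i hi j hj hij
    rw [Finset.mem_range] at hi hj
    rcases Nat.lt_or_gt_of_ne hij with h | h
    · exact key i j h hj
    · exact (key j i h hi).symm
  have hsum : (∑ i ∈ Finset.range (s - 1), (F i).card) + 1 ≤ 2 ^ n := by
    rw [← Finset.card_biUnion hdis]
    have hne : ∅ ∉ (Finset.range (s - 1)).biUnion F := by
      rw [Finset.mem_biUnion]
      rintro ⟨i, hi, hX⟩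
      rw [Finset.mem_range] at hi
      rw [hF, Finset.mem_Icc] at hX
      exact h1 i (by omega) (le_trans hX.1 (Finset.empty_subset _))
    rw [← Finset.card_insert_of_notMem hne]
    refine (Finset.card_le_univ _).trans ?_
    rw [Fintype.card_finset, Fintype.card_fin]
  have hind : ∀ t, t < s → 2 * t ≤ (∑ i ∈ Finset.range t, (F i).card) + (B t).card := by
    intro t
    induction t with
    | zero => intro _; omega
    | succ t ih =>
      intro ht
      have ih' := ih (by omega)
      rw [Finset.sum_range_succ, hFc t]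
      have h3 : (B t).card < (B t ∪ B (t + 1)).card := by
        apply Finset.card_lt_card
        refine ⟨Finset.subset_union_left, fun h => h1 t ht ?_⟩
        exact Finset.subset_union_right.trans h
      have h4 : (B (t + 1)).card ≤ (B t ∪ B (t + 1)).card :=
        Finset.card_le_card Finset.subset_union_right
      have h5 := Nat.lt_two_pow_self (n := (B t ∪ B (t + 1)).card - (B (t + 1)).card)
      omega
  have h6 := hind (s - 1) (by omega)
  have h7 : (B (s - 1)).card ≤ n := (Finset.card_le_univ _).trans (by rw [Fintype.card_fin])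
  have h8 : 2 ^ n = 2 * 2 ^ (n - 1) := by rw [← pow_succ']; congr 1; omega
  omega

theorem keep_card : ∀ (L : List (Finset ℕ)) (a z : Finset ℕ), Ok (a :: L) →
    (a :: L).getLast? = some z →
    2 * (al_keep (a :: L)).length + a.card = (a :: L).length + 1 + z.card
  | [], a, z, _, hz => by
    simp only [List.getLast?_singleton, Option.some.injEq] at hz
    subst hz
    simp [al_keep]
  | b :: L, a, z, hL, hz => by
    have hz' : (b :: L).getLast? = some z := by
      rw [List.getLast?_cons_cons] at hz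
      exact hz
    have ih := keep_card L b z hL.2.2 hz'
    have hab : Adj a b := hL.1
    by_cases h : a ⊆ b
    · have e : al_keep (a :: b :: L) = a :: al_keep (b :: L) := by
        rw [al_keep, if_pos h]
      have hc : b.card = a.card + 1 := by
        rcases hab with ⟨x, hx, rfl⟩ | ⟨x, hx, rfl⟩
        · exact Finset.card_insert_of_notMem hx
        · exact absurd (h (Finset.mem_insert_self _ _)) hx
      rw [e]
      simp only [List.length_cons] at ih ⊢
      omega
    · have e : al_keep (a :: b :: L) = al_keep (b :: L) := by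
        rw [al_keep, if_neg h]
      have hc : a.card = b.card + 1 := by
        rcases hab with ⟨x, hx, rfl⟩ | ⟨x, hx, rfl⟩
        · exact absurd (Finset.subset_insert _ _) h
        · exact Finset.card_insert_of_notMem hx
      rw [e]
      simp only [List.length_cons] at ih ⊢
      omega

theorem val_last (n : ℕ) (L : List (Finset ℕ)) (hok : Ok L) (hsub : ∀ a ∈ L, a ⊆ Finset.Icc 1 n)
    (hlen : L.length = 2 ^ n) (z : Finset ℕ) (hz : L.getLast? = some z) : n ≤ z.card + 1 := by
  have hnd := Ok.nodup L hok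
  have hLF : L.toFinset = (Finset.Icc 1 n).powerset := by
    apply Finset.eq_of_subset_of_card_le
    · intro a ha
      rw [List.mem_toFinset] at ha
      exact Finset.mem_powerset.2 (hsub a ha)
    · rw [Finset.card_powerset, Nat.card_Icc, Nat.add_sub_cancel, List.toFinset_card_of_nodup hnd,
        hlen]
  have hmem : Finset.Icc 1 n ∈ L := by
    rw [← List.mem_toFinset, hLF]
    exact Finset.mem_powerset_self _
  obtain ⟨i, hi, hiE⟩ := List.getElem_of_mem hmem
  have hpos : 0 < L.length := by omega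
  have hzE : L[L.length - 1]'(by omega) = z := by
    rw [List.getLast?_eq_getElem?] at hz
    rw [List.getElem?_eq_getElem (by omega)] at hz
    exact Option.some.inj hz
  have hzS : z ⊆ Finset.Icc 1 n := hsub z (List.mem_of_getLast? hz)
  have hi2 : L.length ≤ i + 2 := by
    by_contra hcon
    apply hok.nback (L.length - 1) i (by omega) (by omega)
    rw [hzE, hiE]
    exact hzS
  rcases Nat.lt_or_ge (i + 1) L.length with h | h
  · have hadj := hok.adj i h
    have h3 : L[i + 1]'h = z := by
      rw [← hzE]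
      congr 1
      omega
    rw [h3, hiE] at hadj
    have hcn : (Finset.Icc 1 n).card = n := by rw [Nat.card_Icc]; omega
    rcases hadj with ⟨x, hx, h4⟩ | ⟨x, hx, h4⟩
    · exact absurd (hzS (h4 ▸ Finset.mem_insert_self _ _)) hx
    · rw [h4, Finset.card_insert_of_notMem hx] at hcn
      omega
  · have h3 : L[i]'hi = z := by
      rw [← hzE]
      congr 1
      omega
    rw [← h3, hiE, Nat.card_Icc]
    omega

theorem val_lower (n : ℕ) (hn : 1 ≤ n)
    (H : ∃ L : List (Finset ℕ), Ok L ∧ L.head? = some ∅ ∧ (∀ a ∈ L, a ⊆ Finset.Icc 1 n) ∧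
      L.length = 2 ^ n) :
    ∃ B : ℕ → Finset (Fin n),
      Set.InjOn B (Set.Iio (2 ^ (n - 1) + (n + 1) / 2)) ∧
      B 0 = ∅ ∧
      (∀ i : ℕ, i + 1 < 2 ^ (n - 1) + (n + 1) / 2 → ¬ B (i + 1) ⊆ B i) ∧
      (∀ i k : ℕ, i + 2 ≤ k → k < 2 ^ (n - 1) + (n + 1) / 2 → ¬ B k ⊆ B i ∪ B (i + 1)) := by
  obtain ⟨L, hok, hh, hsub, hlen⟩ := H
  obtain ⟨R, rfl⟩ : ∃ R, L = ∅ :: R := by
    cases L with
    | nil => simp at hh
    | cons a L =>
      simp only [List.head?_cons, Option.some.injEq] at hh
      exact ⟨L, by rw [hh]⟩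
  obtain ⟨z, hz⟩ : ∃ z, (∅ :: R).getLast? = some z := by
    rw [List.getLast?_cons]; exact ⟨_, rfl⟩
  have hz1 := val_last n _ hok hsub hlen z hz
  have hkc := keep_card R ∅ z hok hz
  rw [hlen, Finset.card_empty] at hkc
  set M := al_keep (∅ :: R) with hM
  have hML : ∀ a ∈ M, a ∈ ∅ :: R := fun a ha => (al_keep_sublist _).subset ha
  have hMnd : M.Nodup := (al_nodup _ hok).sublist (al_keep_sublist _)
  have hMa : Alpha M := al_alpha _ hok
  have hh' : al_head (∅ :: R) := by
    cases R with
    | nil => trivial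
    | cons b R => exact Finset.empty_subset b
  obtain ⟨R', hR', -⟩ := al_keep_head ∅ R hh'
  have h8 : 2 ^ n = 2 * 2 ^ (n - 1) := by rw [← pow_succ']; congr 1; omega
  have hMlen : 2 ^ (n - 1) + (n + 1) / 2 ≤ M.length := by omega
  set s := 2 ^ (n - 1) + (n + 1) / 2 with hs
  have hM0 : M.getD 0 ∅ = ∅ := by
    rw [hM, hR']
    rfl
  have hgd : ∀ i (h : i < s), M.getD i ∅ = M[i]'(by omega) := fun i h =>
    List.getD_eq_getElem _ _ (by omega)
  have hsub' : ∀ i, M.getD i ∅ ⊆ Finset.Icc 1 n := by
    intro i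
    rcases Nat.lt_or_ge i M.length with h | h
    · rw [List.getD_eq_getElem _ _ h]
      exact hsub _ (hML _ (List.getElem_mem _))
    · rw [List.getD_eq_default _ _ h]
      exact Finset.empty_subset _
  refine ⟨fun i => gF n (M.getD i ∅), ?_, ?_, ?_, ?_⟩
  · intro i hi j hj hij
    rw [Set.mem_Iio] at hi hj
    have h1 := gF_inj (hsub' i) (hsub' j) hij
    rw [hgd i hi, hgd j hj] at h1
    exact (List.Nodup.getElem_inj_iff hMnd).1 h1
  · show gF n (M.getD 0 ∅) = ∅
    rw [hM0]
    ext x; simp [mem_gF]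
  · intro i hi h
    have h1 := hMa.suc i (by omega)
    apply h1
    have h2 := (gF_sub (hsub' (i + 1))).1 h
    rw [hgd (i + 1) hi, hgd i (by omega)] at h2
    exact h2
  · intro i k hik hk h
    have h1 := hMa.uni i k (by omega) (by omega)
    apply h1
    have h3 : gF n (M.getD k ∅) ⊆ gF n (M.getD i ∅ ∪ M.getD (i + 1) ∅) := by
      refine h.trans ?_
      intro x hx
      rw [Finset.mem_union, mem_gF, mem_gF] at hx
      rw [mem_gF, Finset.mem_union]
      exact hx
    have h4 := (gF_sub (hsub' k)).1 h3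
    rw [hgd k hk, hgd i (by omega), hgd (i + 1) (by omega)] at h4
    exact h4

/-- TARGET: the exact value from a full ordering -/
theorem val_of_ok (n : ℕ) (hn : 1 ≤ n)
    (H : ∃ L : List (Finset ℕ), Ok L ∧ L.head? = some ∅ ∧ (∀ a ∈ L, a ⊆ Finset.Icc 1 n) ∧
      L.length = 2 ^ n) :
    IsGreatest
      {s : ℕ | ∃ B : ℕ → Finset (Fin n),
        Set.InjOn B (Set.Iio s) ∧
        B 0 = ∅ ∧
        (∀ i : ℕ, i + 1 < s → ¬ B (i + 1) ⊆ B i) ∧
        (∀ i k : ℕ, i + 2 ≤ k → k < s → ¬ B k ⊆ B i ∪ B (i + 1))}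
      (2 ^ (n - 1) + (n + 1) / 2) := by
  refine ⟨val_lower n hn H, ?_⟩
  rintro s ⟨B, -, h0, h1, h2⟩
  exact val_upper n s hn B h0 h1 h2

end Pool.Agent.Helper605.FX
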